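import Pool.Agent.R225.LP.GS
import Pool.Agent.R225.LP.AJ

set_option autoImplicit false

/-!
# Equiangular polygons among all convex polygons

Let `P` be an equiangular convex polygon with `N ≥ 5` vertices whose perimeter is less than `N + 1`
times each of its sides (for instance a regular polygon, or any equiangular polygon whose sides
differ little enough). Let `Q` be any convex polygon, with any number of vertices, which has the same
Dirichlet spectrum as `P`, up to finitely many eigenvalues. Then `Q` is an equiangular polygon with `N` vertices, and for `N ≥ 6` it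
has the same side lengths as `P`, up to their order. If `N ≤ 6`, or if the vector of the side lengths
of `P` avoids a certain finite list of proper subspaces, or if `P` is regular, then `Q` is congruent
to `P`.

Main idea: `4 π t` times the heat trace is the expected area of the set of positions of a random loop
(a Brownian bridge of duration `t`) inside the polygon. The remainder, after the three classical heat
invariants are subtracted, is exponentially small, and its logarithmic rate is the least distance
between two non-adjacent sides. Together with the perimeter this bounds the number of vertices of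
`Q`, and then the constant heat invariant forces equal angles. For an equiangular polygon the
remainder is, up to a much smaller error, a sum over the sides of one and the same function of the
side length, which decreases like `exp (-l ^ 2 / t)`; so the side lengths are determined one after
the other.
-/

open Set
open Pool.Agent.W780.PG (IsConvexPolygon region)
open Pool.Agent.W703.GP (dirichletEigenvalue)
open scoped Real

namespace Pool.Agent.Results.MP_5b0138_an.EquiangularPolygons

/-- There is an equiangular polygon whose consecutive sides are `l 0, l 1, …` (if these are positive)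
just if this holds: the sum of the `l k` times the powers of a root of unity of order `n + 3` is
`0`. -/
def Closed {n : ℕ} (l : Fin (n + 3) → ℝ) : Prop :=
  ∑ k : Fin (n + 3), (l k : ℂ) * Complex.exp (2 * π * Complex.I / (n + 3)) ^ (k : ℕ) = 0

/-- A rearrangement of the numbers `l 0, l 1, …` satisfies the closing condition only if it differs
from `l 0, l 1, …` by a rotation or a reflection of the cyclic order. -/
def Rigid {n : ℕ} (l : Fin (n + 3) → ℝ) : Prop :=
  ∀ σ : Equiv.Perm (Fin (n + 3)), Closed (fun k => l (σ k)) →
    ∃ a : Fin (n + 3), (∀ k, l (σ k) = l (k + a)) ∨ (∀ k, l (σ k) = l (a - k))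

/-- `P = region p` is an arbitrary equiangular convex polygon with `N = n + 5` vertices such that
its perimeter is less than `N + 1` times each side. `Q`, the interior of the convex hull of the
finite set `S`, is an arbitrary convex polygon whose Dirichlet eigenvalue number `k`, with
multiplicity, is the same as that of `P` for all but finitely many `k`. The last part says
which side lengths are rigid: constant ones, and all outside finitely many proper subspaces of the
space of the closed ones. -/
theorem result (n : ℕ) :
    (∀ p : Fin (n + 2 + 3) → ℂ, IsConvexPolygon p →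
      (∀ j, EuclideanGeometry.angle (p (j - 1)) (p j) (p (j + 1)) = π * (n + 3) / (n + 5)) →
      (∀ k, ∑ i, ‖p (i + 1) - p i‖ < (n + 6) * ‖p (k + 1) - p k‖) →
      ∀ S : Set ℂ, S.Finite → (interior (convexHull ℝ S)).Nonempty →
      (∀ᶠ k in Filter.atTop, dirichletEigenvalue (region p) k =
        dirichletEigenvalue (interior (convexHull ℝ S)) k) →
      (∃ q : Fin (n + 2 + 3) → ℂ, IsConvexPolygon q ∧ region q = interior (convexHull ℝ S) ∧
        (∀ j, EuclideanGeometry.angle (q (j - 1)) (q j) (q (j + 1)) = π * (n + 3) / (n + 5)) ∧
        (1 ≤ n → ∃ σ : Equiv.Perm (Fin (n + 2 + 3)),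
          ∀ k, ‖q (k + 1) - q k‖ = ‖p (σ k + 1) - p (σ k)‖)) ∧
      ((n ≤ 1 ∨ Rigid fun k => ‖p (k + 1) - p k‖) →
        ∃ φ : ℂ ≃ᵢ ℂ, φ '' region p = interior (convexHull ℝ S))) ∧
    (∀ c : ℝ, Rigid fun _ : Fin (n + 2 + 3) => c) ∧
    ∃ F : Set (Submodule ℝ (Fin (n + 2 + 3) → ℝ)), F.Finite ∧
      (∀ W ∈ F, ∃ l : Fin (n + 2 + 3) → ℝ, Closed l ∧ l ∉ W) ∧
      ∀ l : Fin (n + 2 + 3) → ℝ, (∀ W ∈ F, l ∉ W) → Rigid l := by
  have e1 : Complex.exp ((Pool.Agent.R225.LP.te (n + 2) : ℂ) * Complex.I) =
      Complex.exp (2 * π * Complex.I / (((n + 2 : ℕ) : ℂ) + 3)) := by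
    congr 1
    unfold Pool.Agent.R225.LP.te
    push_cast
    ring
  have e2 : ∀ l : Fin (n + 2 + 3) → ℝ, Rigid l ↔ Pool.Agent.R225.LP.RigidSides l := by
    intro l
    unfold Rigid Pool.Agent.R225.LP.RigidSides Closed
    rw [e1]
  refine ⟨fun p hp hang hL S hS hne h => ?_, fun c σ _ => ⟨0, Or.inl fun _ => rfl⟩, ?_⟩
  · replace h := Pool.Agent.R225.LP.almost_region hp hS hne h
    obtain ⟨m, q, hq, e⟩ := Pool.Agent.Y459.HI.vs S hS hne
    rw [← e] at h ⊢
    have ha : π * (n + 3) / (n + 5) =
        π * (((n + 2 : ℕ) : ℝ) + 1) / (((n + 2 : ℕ) : ℝ) + 3) := by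
      push_cast
      congr 1 <;> ring
    obtain ⟨q', h1, h2, h3, h4, h5⟩ := Pool.Agent.R225.LP.equi (n := n) (p := p) hp
      (fun j => (hang j).trans ha) hL hq h
    refine ⟨⟨q', h1, h2, fun j => (h3 j).trans ha.symm, h4⟩, fun hr => h5 ?_⟩
    exact hr.imp id (e2 _).1
  · obtain ⟨F, hF, h1, h2⟩ := Pool.Agent.R225.LP.gs (n + 2) (by omega)
    refine ⟨F, hF, fun W hW => ?_, fun l hl => (e2 l).2 (h2 l hl)⟩
    obtain ⟨l, hl, hc⟩ := h1 W hW
    refine ⟨l, ?_, hl⟩
    unfold Closed
    rw [← e1]
    exact hc

end Pool.Agent.Results.MP_5b0138_an.EquiangularPolygons
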