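import Pool.Agent.R225.LP.OP

set_option autoImplicit false

/-!
# Open sets of polygons which are determined by their Dirichlet spectrum among all convex polygons

For every `N ≥ 5` there is an open set `U` of convex `N`-gons `P` such that every convex polygon `Q`,
with any number of vertices, which has the same Dirichlet spectrum as `P` (up to finitely many
eigenvalues) is congruent to `P`. The regular `N`-gon is in the closure of `U`, and `U` contains all
equiangular `N`-gons whose sides differ little enough, except those whose side lengths lie in
finitely many proper subspaces.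

Main idea: let `P₀` be a generic equiangular `N`-gon with nearly equal sides. By the theorem on
equiangular polygons (`Results/MP_5b0138_an/EquiangularPolygons`) and a compactness argument, a
convex polygon isospectral to a polygon near `P₀` is itself near `P₀`, so a local statement remains:
two isospectral polygons `P`, `Q` near `P₀` are congruent. `4 π t` times the heat trace is the expected
area of the set of positions of a random loop (a Brownian bridge of duration `t`) inside the polygon.
Up to an error which is much smaller than all the terms in question, even in the Lipschitz norm as a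
function of the polygon, the remainder of the heat trace of a polygon near `P₀` is the sum over the
sides of one and the same function of the side length and of the cotangents of the two adjacent
angles. This function is a limit of convex functions, has a strict derivative at `P₀`, and the
derivative with respect to the cotangents is of smaller order than the derivative with respect to the
length. The side lengths of `P₀` are different, so `P - Q`, divided by its norm, changes neither the
side lengths nor the sums of two neighbouring cotangents, to first order; this makes it zero.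
-/

open Set
open Pool.Agent.W780.PG (IsConvexPolygon region)
open Pool.Agent.W703.GP (dirichletEigenvalue)
open scoped Real

namespace Pool.Agent.Results.MP_5b0138_an.OpenSetsOfPolygons

/-- There is an equiangular polygon whose consecutive sides are `l 0, l 1, …` (if these are positive)
just if this holds: the sum of the `l k` times the powers of a root of unity of order `n + 3` is
`0`. -/
def Closed {n : ℕ} (l : Fin (n + 3) → ℝ) : Prop :=
  ∑ k : Fin (n + 3), (l k : ℂ) * Complex.exp (2 * π * Complex.I / (n + 3)) ^ (k : ℕ) = 0

/-- There are an open set `U` of lists of `N = n + 5` points of the plane and a finite set `F` of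
subspaces of the space of side vectors, none of which contains all closed vectors, with these
properties. The regular `N`-gon is in the closure of `U`. Each `p ∈ U` lists the vertices of a convex
polygon `P = region p`, which is congruent to each convex polygon `Q` (the interior of the convex
hull of a finite set `S`) whose Dirichlet eigenvalue number `k`, with multiplicity, is the same as
that of `P` for all but finitely many `k`. If `p` lists the vertices of an equiangular convex
`N`-gon, its perimeter is less than `N + 1` times each side, each side is less than `4 / 3` times
each other side and the vector of the side lengths is in no member of `F`, then `p ∈ U`. -/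
theorem result (n : ℕ) : ∃ (U : Set (Fin (n + 2 + 3) → ℂ))
    (F : Set (Submodule ℝ (Fin (n + 2 + 3) → ℝ))),
    IsOpen U ∧
    (fun k : Fin (n + 2 + 3) => Complex.exp (2 * π * Complex.I / (n + 5)) ^ (k : ℕ)) ∈ closure U ∧
    (∀ p ∈ U, IsConvexPolygon p ∧
      ∀ S : Set ℂ, S.Finite → (interior (convexHull ℝ S)).Nonempty →
        (∀ᶠ k in Filter.atTop, dirichletEigenvalue (region p) k =
          dirichletEigenvalue (interior (convexHull ℝ S)) k) →
        ∃ φ : ℂ ≃ᵢ ℂ, φ '' region p = interior (convexHull ℝ S)) ∧
    F.Finite ∧ (∀ W ∈ F, ∃ l : Fin (n + 2 + 3) → ℝ, Closed l ∧ l ∉ W) ∧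
    ∀ p : Fin (n + 2 + 3) → ℂ, IsConvexPolygon p →
      (∀ j, EuclideanGeometry.angle (p (j - 1)) (p j) (p (j + 1)) = π * (n + 3) / (n + 5)) →
      (∀ k, ∑ i, ‖p (i + 1) - p i‖ < (n + 6) * ‖p (k + 1) - p k‖) →
      (∀ j k, ‖p (j + 1) - p j‖ < 4 / 3 * ‖p (k + 1) - p k‖) →
      (∀ W ∈ F, (fun k => ‖p (k + 1) - p k‖) ∉ W) → p ∈ U := by
  have e1 : Complex.exp ((Pool.Agent.R225.LP.te (n + 2) : ℂ) * Complex.I) =
      Complex.exp (2 * π * Complex.I / (((n + 2 : ℕ) : ℂ) + 3)) := by
    congr 1
    unfold Pool.Agent.R225.LP.te
    push_cast
    ring
  have e2 : Complex.exp (2 * π * Complex.I / (n + 5)) =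
      Complex.exp ((Pool.Agent.R225.LP.te (n + 2) : ℂ) * Complex.I) := by
    rw [e1]
    congr 1
    push_cast
    ring
  obtain ⟨F, h1, h2, h3⟩ := Pool.Agent.R225.LP.mem_int n
  refine ⟨interior (Pool.Agent.R225.LP.Det (n + 2)), F, isOpen_interior, ?_, fun p hp => ?_, h1,
    fun W hW => ?_, fun p hp hang hL hr hW => ?_⟩
  · rw [e2]
    exact Pool.Agent.R225.LP.regular_closure n
  · obtain ⟨hcp, hdet⟩ := interior_subset hp
    refine ⟨hcp, fun S hS hne h => ?_⟩
    replace h := Pool.Agent.R225.LP.almost_region hcp hS hne h
    obtain ⟨m, q, hq, e⟩ := Pool.Agent.Y459.HI.vs S hS hne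
    rw [← e] at h ⊢
    exact hdet m q hq h
  · obtain ⟨l, hl, hc⟩ := h2 W hW
    refine ⟨l, ?_, hl⟩
    unfold Closed
    rw [← e1]
    exact hc
  · have ha : π * (n + 3) / (n + 5) =
        π * (((n + 2 : ℕ) : ℝ) + 1) / (((n + 2 : ℕ) : ℝ) + 3) := by
      push_cast
      congr 1 <;> ring
    exact h3 p hp (fun j => (hang j).trans ha) hL hr hW

end Pool.Agent.Results.MP_5b0138_an.OpenSetsOfPolygons
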