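import Pool.Agent.R225.LP.AJ

set_option autoImplicit false

/-!
# Every parallelogram is determined by its Dirichlet spectrum among all convex polygons

Let `P` be a parallelogram (for instance a rectangle or a rhombus) or, more generally, a trapezoid
whose two legs are at distance at least the height of the trapezoid. Let `Q` be any convex polygon,
with any number of vertices, which has the same Dirichlet spectrum as `P`, up to finitely many
eigenvalues. Then `Q` is congruent to `P`.

Main idea: `4 π t` times the heat trace is the expected area of the set of positions of a random loop
(a Brownian bridge of duration `t`) inside the polygon. The remainder `R(t)`, after the three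
classical heat invariants are subtracted, is of the order `exp (-d ^ 2 / t)`, up to powers of `t`,
where `d` is the least distance between two non-adjacent sides. It is at least
`c * exp (-d ^ 2 / t)` for `P`, where two parallel sides at distance `d` face each other. If `R(t)`
is of this size for a convex polygon `Q`, then `d` is the diameter of the largest inscribed disc of
`Q` and is attained by two parallel sides; this forces `Q` to be a quadrilateral with two parallel
sides. Now the height, the area, the perimeter and the sum over the angles are known for both, and
determine the angles of the legs up to sign; the last ambiguity (turning one end of a trapezoid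
upside down) is removed by comparing the heat traces by a reflection of Brownian paths.
-/

open Set
open Pool.Agent.W703.GP (dirichletEigenvalue)

namespace Pool.Agent.Results.MP_5b0138_an.ParallelogramsAndTrapezoids

/-- `P`, the interior of the convex hull of `a`, `b`, `c`, `d`, is an arbitrary trapezoid with the
parallel sides `ab` and `dc` (their ratio is `r`). It is a parallelogram (`r = 1`), or any two points
of its legs `ad` and `bc` have a distance at least the height (the distance of `d` from the line
`ab`). The interior of the convex hull of the finite set `S`, if not empty, is an arbitrary convex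
polygon. The Dirichlet eigenvalues number `k` of the two, with multiplicity, defined by the min-max
formula, agree for all but finitely many `k`, and `φ : ℂ ≃ᵢ ℂ` is an isometry of the plane. -/
theorem result (a b c d : ℂ) (r : ℝ) (hr : 0 < r) (hpar : c - d = r * (b - a))
    (hP : (interior (convexHull ℝ {a, b, c, d})).Nonempty)
    (hl : r = 1 ∨ ∀ z ∈ segment ℝ a d, ∀ w ∈ segment ℝ b c,
      Metric.infDist d (affineSpan ℝ {a, b} : Set ℂ) ≤ dist z w)
    (S : Set ℂ) (hS : S.Finite) (hne : (interior (convexHull ℝ S)).Nonempty)
    (h : ∀ᶠ k in Filter.atTop, dirichletEigenvalue (interior (convexHull ℝ {a, b, c, d})) k =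
      dirichletEigenvalue (interior (convexHull ℝ S)) k) :
    ∃ φ : ℂ ≃ᵢ ℂ, φ '' interior (convexHull ℝ {a, b, c, d}) = interior (convexHull ℝ S) := by
  replace h := Pool.Agent.R225.LP.almost_hull (Set.toFinite _) hS hP hne h
  rcases hl with hl | hl
  · have hc : c = b + d - a := by
      rw [hl] at hpar
      linear_combination hpar + Complex.ofReal_one * (b - a)
    subst hc
    obtain ⟨h', b', x, h1, h2, h3, hφ⟩ := Pool.Agent.R225.LP.par_gen a b d hP
    obtain ⟨m, q, hq, e⟩ := Pool.Agent.Y459.HI.vs S hS hne
    rw [← e] at h ⊢
    exact hφ.trans (Pool.Agent.R225.LP.tz_main Pool.Agent.R225.LP.h_B5 h1 h2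
      (by rw [add_neg_cancel, mul_zero]; exact h2) h3 hq
      (Pool.Agent.W703.GP.iso_trans hφ.symm.iso h))
  · obtain ⟨h', b', x, y, h1, h2, h3, h4, hφ⟩ := Pool.Agent.R225.LP.tr_gen a b c d r hr hpar hP hl
    obtain ⟨m, q, hq, e⟩ := Pool.Agent.Y459.HI.vs S hS hne
    rw [← e] at h ⊢
    exact hφ.trans (Pool.Agent.R225.LP.tz_main Pool.Agent.R225.LP.h_B5 h1 h2 h3 h4 hq
      (Pool.Agent.W703.GP.iso_trans hφ.symm.iso h))

end Pool.Agent.Results.MP_5b0138_an.ParallelogramsAndTrapezoids
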