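import Pool.Agent.R225.LP.Fin
import Pool.Agent.R225.LP.AJ

set_option autoImplicit false

/-!
# Every triangle is determined by its Dirichlet spectrum among all convex polygons

Let `T` be a triangle and let `Q` be any convex polygon, with any number of vertices, which has the
same Dirichlet spectrum as `T`, up to finitely many eigenvalues. Then `Q` is congruent to `T`.

Main idea: the heat trace of a convex polygon is `1 / (4 π t)` times the expected area of the set of
positions of a random loop (a Brownian bridge of duration `t`) inside the polygon. This area is the
area of the polygon whose sides are moved inwards by the extents of the loop, and the quadratic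
polynomial in these extents which is equal to it for small loops has as its expectation exactly the
sum of the three classical heat invariants (area, perimeter, angles). So the remainder of the heat
trace is the expectation of the difference `D` between the area and the quadratic polynomial. For a
triangle `D ≤ 0` always. For any other convex polygon `D > 0` whenever the loop is short and makes
a side disappear, and `D < 0` only if the loop is longer than twice the diameter of the largest
inscribed disc; so the remainder is positive for small times. Hence a polygon isospectral to a
triangle is a triangle; two isospectral triangles are congruent (Durso; the proof of Grieser and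
Maronna is used). If only the eigenvalues with large indices agree, then the difference of the heat
traces is a finite sum of exponentials; it is smaller than any power of `t`, because the remainders
are, so it is zero.
-/

open Set
open Pool.Agent.W780.PG (IsConvexPolygon region)
open Pool.Agent.W703.GP (dirichletEigenvalue)

namespace Pool.Agent.Results.MP_5b0138_an.TrianglesAmongAllConvexPolygons

/-- `interior (convexHull ℝ {a, b, c})`, if not empty, is an arbitrary triangle, and the interior of
the convex hull of the finite set `S`, if not empty, is an arbitrary convex polygon. Their Dirichlet
eigenvalues number `k`, with multiplicity, defined by the min-max formula, agree for all but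
finitely many `k`, and `φ : ℂ ≃ᵢ ℂ` is an isometry of the plane. -/
theorem result (a b c : ℂ) (hT : (interior (convexHull ℝ {a, b, c})).Nonempty) (S : Set ℂ)
    (hS : S.Finite) (hne : (interior (convexHull ℝ S)).Nonempty)
    (h : ∀ᶠ k in Filter.atTop, dirichletEigenvalue (interior (convexHull ℝ {a, b, c})) k =
      dirichletEigenvalue (interior (convexHull ℝ S)) k) :
    ∃ φ : ℂ ≃ᵢ ℂ, φ '' interior (convexHull ℝ {a, b, c}) = interior (convexHull ℝ S) := by
  replace h := Pool.Agent.R225.LP.almost_hull (Set.toFinite _) hS hT hne h
  obtain ⟨p, hp, e₁⟩ := Pool.Agent.R225.LP.tri_poly a b c hT
  obtain ⟨m, q, hq, e₂⟩ := Pool.Agent.Y459.HI.vs S hS hne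
  rw [← e₁, ← e₂] at h ⊢
  exact Pool.Agent.R225.LP.triangle p hp m q hq h

end Pool.Agent.Results.MP_5b0138_an.TrianglesAmongAllConvexPolygons
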